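import Pool.Agent.Y885.TU5

/-!
# Prime triples, uniformly over all pairs of shifts in two short windows: the positions of the windows are arbitrary
up to very few elements of arbitrary sets which meet every interval `[x, l x]`

Definitions used: `Pool.Agent.H373R2.T7.singZ a z`: the partial product over the primes `p ≤ z` of
`(1 - ν(p) / p) / (1 - 1 / p) ^ 3`, where `ν(p)` is the number of `r < p` for which `p` divides
`r (r + a 0) (r + a 1)`; `Pool.Agent.H373R2.T7.tupleCount a N`: the sum of
`log p * ∏ i, log (p + a i)` over the primes `p ≤ N` for which all `p + a i` are primes;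
`Pool.Agent.H373R2.T7.Admissible a`: for every prime `p` there is an `r` such that `p` divides neither
`r` nor any `r + a i`; `Pool.Agent.H560R3.GB.primeTuples a N`: the number of primes `p ≤ N` for which
all `p + a i` are primes.
-/

set_option autoImplicit false

namespace Pool.Agent.Results.MP_1039f5_nt.ElementsOfAnySets

open Finset Pool.Agent.H560R3.GB
open Pool.Agent.H373R2.T7 (singZ tupleCount Admissible)

/-- The formula of Hardy and Littlewood for the triples `p, p + a 0, p + a 1` of primes with `p ≤ N`: the singular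
series converges, its sum `S` predicts the weighted number of prime triples with an error of at most
`N / log ^ U N`, and, if the triple is admissible, `S` is positive and `S N / log ^ 3 N` predicts the number of prime
triples with a relative error of at most `ε`. -/
def Holds (ε : ℝ) (U N : ℕ) (a : Fin 2 → ℕ) : Prop :=
  ∃ S : ℝ, Filter.Tendsto (fun z => singZ (fun i => (a i : ℤ)) z) Filter.atTop (nhds S) ∧
    |tupleCount (fun i => (a i : ℤ)) N - S * N| ≤ (N : ℝ) / Real.log N ^ U ∧
    (Admissible (fun i => (a i : ℤ)) → 0 < S ∧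
      |(primeTuples a N : ℝ) - S * (N / Real.log N ^ 3)| ≤ ε * (S * (N / Real.log N ^ 3)))

/-- The formula holds uniformly for all shifts in the windows of the length `log ^ κ N` to the right of `a 0` and `a 1`. -/
def Uniform (ε : ℝ) (U κ N : ℕ) (a : Fin 2 → ℕ) : Prop :=
  ∀ e : Fin 2 → ℕ, (∀ i, (e i : ℝ) ≤ Real.log N ^ κ) → Holds ε U N (fun i => a i + e i)

/-- For all `l ≥ 2`, `U` and `κ` there is a constant `C` such that for all `H`, `B` and `ε > 0` there is an `N₀` with
the following property. Let `A 0, A 1` be arbitrary sets of integers each of which contains an element of every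
interval `[x, l x]`, `x ≥ 1` (the constants `C` and `N₀` do not depend on these sets). Let `N ≥ N₀`, and let
`0 ≤ h 0, h 1 ≤ B N` be arbitrary integers. Then there are sets `S i` of at most `C (log log N) ^ 2` elements of `A i`,
all between `log ^ H N` and `N / log ^ H N`, such that, for `a i = h i + ∑ S i`, the formula of Hardy and Littlewood
holds for the primes up to `N` and all pairs of shifts `a 0 + e 0, a 1 + e 1` with `0 ≤ e 0, e 1 ≤ log ^ κ N`. The sums
`∑ S i` are divisible by `6`, so that the triple `0, a 0 + e 0, a 1 + e 1` is admissible if `0, h 0 + e 0, h 1 + e 1` is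
admissible. -/
theorem result (l U κ : ℕ) (hl : 2 ≤ l) : ∃ C : ℝ, ∀ (H B : ℕ) (ε : ℝ), 0 < ε → ∃ N₀ : ℕ,
    ∀ A : Fin 2 → Set ℕ, (∀ i, ∀ x : ℕ, 1 ≤ x → ∃ a ∈ A i, x ≤ a ∧ a ≤ l * x) →
      ∀ N : ℕ, N₀ ≤ N → ∀ h : Fin 2 → ℕ, (∀ i, h i ≤ B * N) →
        ∃ S : Fin 2 → Finset ℕ,
          (∀ i, ∀ a ∈ S i, a ∈ A i ∧ Real.log N ^ H ≤ a ∧ (a : ℝ) ≤ N / Real.log N ^ H) ∧
          (∀ i, ((S i).card : ℝ) ≤ C * Real.log (Real.log N) ^ 2) ∧
          (∀ i, 6 ∣ ∑ a ∈ S i, a) ∧
          (∀ e : Fin 2 → ℕ, Admissible (fun i => ((h i + e i : ℕ) : ℤ)) →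
            Admissible (fun i => ((h i + ∑ a ∈ S i, a + e i : ℕ) : ℤ))) ∧
          Uniform ε U κ N (fun i => h i + ∑ a ∈ S i, a) := by
  obtain ⟨C, hC⟩ := Pool.Agent.Y885.las_tuplesW 2 l U κ (by norm_num) hl
  refine ⟨C, fun H B ε hε => ?_⟩
  obtain ⟨N₀, h0⟩ := hC H B ε hε
  refine ⟨N₀, fun A hA N hN h hh => ?_⟩
  obtain ⟨S, h1, h2, h3, h4⟩ := h0 A hA N hN h hh
  have hp : primorial (2 + 1) = 6 := by decide
  rw [hp] at h3
  refine ⟨S, h1, h2, h3, fun e he => ?_, fun e he => h4 e he⟩
  refine Pool.Agent.Y885.adm_congr _ _ he (fun i => ?_)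
  rw [hp]
  have e1 : ((h i + ∑ a ∈ S i, a + e i : ℕ) : ℤ) - ((h i + e i : ℕ) : ℤ) = ((∑ a ∈ S i, a : ℕ) : ℤ) := by push_cast; ring
  rw [e1]
  exact_mod_cast h3 i

end Pool.Agent.Results.MP_1039f5_nt.ElementsOfAnySets
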