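import Pool.Agent.Y987.SZ.SingP
import Pool.Agent.Y987.SZ.FormsU

set_option autoImplicit false

/-! # Triples `n, n - a, n - b` of primes and almost primes: the right order with the singular series and
narrow progressions, uniformly in all shifts up to any power of `X`

The number of primes `p ≤ X` with `p - a` and `p - b` almost prime is at least a constant times
`𝔖({0, a, b}) X / log³ X`, uniformly in `a`, `b` up to `X ^ A`; the same in every interval of length `X`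
for the integers `n` with `n`, `n - a`, `n - b` almost prime; and for every subset `S` of these `n` (for
instance those for which all three are primes) all but `ε 𝔖 X / log³ X` elements of `S` lie in
progressions of `k` terms contained in `S` whose difference is at most a power of `log X`, which depends
only on `k`, `ε`, `A`.

Ingredients: the relative Szemerédi theorem for sets sifted by arbitrary classes (`Y843.HS`, helper843),
the number of primes sifted by arbitrary nonzero classes (`Y843.HG`, Bombieri-Vinogradov and the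
fundamental lemma), the fundamental lemma for classes in intervals (`Y151.HS`, helper151). -/

namespace Pool.Agent.Results.MP_1039f5_nt.UniformNarrowProgressions

open Finset

/-- the singular series of `{0, a, b}` -/
noncomputable def Sing (a b : ℤ) : ℝ :=
  ∏' p : Nat.Primes, (1 - (((({0, a, b} : Finset ℤ).image (fun n => n % ((p : ℕ) : ℤ))).card : ℕ) : ℝ) /
    ((p : ℕ) : ℝ)) / (1 - 1 / ((p : ℕ) : ℝ)) ^ 3

/-- all prime factors of `m ≠ 0` are larger than `y` -/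
def Rough (y : ℝ) (m : ℤ) : Prop := m ≠ 0 ∧ ∀ p : ℕ, p.Prime → (p : ℤ) ∣ m → y < p

/-- `m` has at most `R` prime factors (with multiplicity), all larger than `y` -/
def AlmostPrime (R : ℕ) (y : ℝ) (m : ℤ) : Prop :=
  Rough y m ∧ m.natAbs.primeFactorsList.length ≤ R

/-- `n` is a term of a progression of `k` terms of `S` with a difference `q`, `1 ≤ q ≤ L` -/
def InAP (k : ℕ) (L : ℝ) (S : Set ℕ) (n : ℕ) : Prop :=
  ∃ a q : ℕ, 1 ≤ q ∧ (q : ℝ) ≤ L ∧ (∀ j < k, a + j * q ∈ S) ∧ ∃ j < k, n = a + j * q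

theorem result : ∃ κ : ℝ, 0 < κ ∧ ∀ A : ℕ, ∃ (R X₁ : ℕ) (c : ℝ), 0 < c ∧
    (∀ X : ℕ, X₁ ≤ X → ∀ a b : ℤ, a ≠ 0 → b ≠ 0 → a ≠ b → |a| ≤ (X : ℤ) ^ A → |b| ≤ (X : ℤ) ^ A →
      Sing a b ≠ 0 →
      c * (Sing a b * (X / Real.log X ^ 3)) ≤ (Set.ncard {p : ℕ | p ≤ X ∧ p.Prime ∧
        AlmostPrime R ((X : ℝ) ^ κ) ((p : ℤ) - a) ∧ AlmostPrime R ((X : ℝ) ^ κ) ((p : ℤ) - b)} : ℝ) ∧
      ∀ N : ℕ, N ≤ X ^ A → c * (Sing a b * (X / Real.log X ^ 3)) ≤ (Set.ncard {n : ℕ | N < n ∧ n ≤ N + X ∧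
        AlmostPrime R ((X : ℝ) ^ κ) n ∧ AlmostPrime R ((X : ℝ) ^ κ) ((n : ℤ) - a) ∧
        AlmostPrime R ((X : ℝ) ^ κ) ((n : ℤ) - b)} : ℝ)) ∧
    ∀ (k : ℕ) (ε : ℝ), 1 ≤ k → 0 < ε → ∃ B X₀ : ℕ, ∀ X N : ℕ, X₀ ≤ X → ∀ a b : ℤ, a ≠ 0 → b ≠ 0 →
      a ≠ b → |a| ≤ (X : ℤ) ^ A → |b| ≤ (X : ℤ) ^ A → Sing a b ≠ 0 →
      ∀ S : Set ℕ, (∀ n ∈ S, N < n ∧ n ≤ N + X ∧ Rough ((X : ℝ) ^ κ) n ∧
        Rough ((X : ℝ) ^ κ) ((n : ℤ) - a) ∧ Rough ((X : ℝ) ^ κ) ((n : ℤ) - b)) →
      (Set.ncard {n | n ∈ S ∧ ¬ InAP k (Real.log X ^ B) S n} : ℝ) ≤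
        ε * (Sing a b * (X / Real.log X ^ 3)) := by
  classical
  obtain ⟨κ1, hκ1, hκ1', hp⟩ := Pool.Agent.Y987.SZ.primes_SS 2
  obtain ⟨κ2, hκ2, hκ2', hi⟩ := Pool.Agent.Y987.SZ.int_SS 3
  set κ := min κ1 κ2 with hκ
  have hκ0 : 0 < κ := lt_min hκ1 hκ2
  have hκle : κ ≤ 1 := (min_le_left _ _).trans hκ1'
  -- the set of the shifts
  have hcard : ∀ a b : ℤ, a ≠ 0 → b ≠ 0 → a ≠ b → ({0, a, b} : Finset ℤ).card = 3 := by
    intro a b ha hb hab
    rw [card_eq_three]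
    exact ⟨0, a, b, ha.symm, hb.symm, hab, rfl⟩
  have hSS : ∀ a b : ℤ, a ≠ 0 → b ≠ 0 → a ≠ b →
      Sing a b = Pool.Agent.Y987.SZ.SS ({0, a, b} : Finset ℤ) := by
    intro a b ha hb hab
    unfold Pool.Agent.Y987.SZ.SS Sing
    rw [hcard a b ha hb hab]
    rfl
  have hshift : ∀ (X A : ℕ) (a b : ℤ), a ≠ 0 → b ≠ 0 → a ≠ b → |a| ≤ (X : ℤ) ^ A → |b| ≤ (X : ℤ) ^ A →
      Sing a b ≠ 0 → Pool.Agent.Y987.SZ.Shifts 3 (X ^ A) ({0, a, b} : Finset ℤ) := by
    intro X A a b ha hb hab hA hB hS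
    refine ⟨hcard a b ha hb hab, ?_, ?_⟩
    · intro d hd
      rw [mem_insert, mem_insert, mem_singleton] at hd
      push_cast
      rcases hd with rfl | rfl | rfl
      · rw [abs_zero]
        positivity
      · exact hA
      · exact hB
    · apply Pool.Agent.Y987.SZ.adm_of_SS
      rw [← hSS a b ha hb hab]
      exact hS
  -- rough numbers
  have hrough : ∀ (y : ℝ) (n : ℕ) (a b : ℤ), 2 ≤ y →
      (Pool.Agent.Y987.SZ.RoughD ({0, a, b} : Finset ℤ) y n ↔
        (Rough y (n : ℤ) ∧ Rough y ((n : ℤ) - a) ∧ Rough y ((n : ℤ) - b))) := by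
    intro y n a b hy
    have h1 : ∀ d : ℤ, (∀ p : ℕ, p.Prime → (p : ℝ) ≤ y → ¬ (p : ℤ) ∣ (n : ℤ) - d) ↔
        Rough y ((n : ℤ) - d) := by
      intro d
      constructor
      · intro h
        refine ⟨?_, ?_⟩
        · intro h0
          apply h 2 Nat.prime_two (by push_cast; exact hy)
          rw [h0]
          exact dvd_zero _
        · intro p hp' hd
          by_contra hcon
          push Not at hcon
          exact h p hp' hcon hd
      · intro h p hp' hpy hd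
        have := h.2 p hp' hd
        linarith
    unfold Pool.Agent.Y987.SZ.RoughD
    constructor
    · intro h
      have h2 := (h1 0).1 (h 0 (by simp))
      rw [sub_zero] at h2
      exact ⟨h2, (h1 a).1 (h a (by simp)), (h1 b).1 (h b (by simp))⟩
    · rintro ⟨h2, h3, h4⟩ d hd
      rw [mem_insert, mem_insert, mem_singleton] at hd
      rcases hd with rfl | rfl | rfl
      · apply (h1 0).2
        rw [sub_zero]
        exact h2
      · exact (h1 _).2 h3
      · exact (h1 _).2 h4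
  refine ⟨κ, hκ0, ?_⟩
  intro A
  obtain ⟨c1, X1, hc1, hp1⟩ := hp A
  obtain ⟨c2, X2, hc2, hi1⟩ := hi A
  obtain ⟨R, hR⟩ := exists_nat_gt (((A + 3 : ℕ) : ℝ) / κ)
  have ht : Filter.Tendsto (fun X : ℕ => (X : ℝ) ^ κ) Filter.atTop Filter.atTop :=
    (tendsto_rpow_atTop hκ0).comp tendsto_natCast_atTop_atTop
  obtain ⟨X3, hX3⟩ := (ht.eventually_ge_atTop 2).exists_forall_of_atTop
  -- the number of prime factors
  have hlen : ∀ (X : ℕ) (m : ℤ), 4 ≤ X → |m| ≤ 3 * (X : ℤ) ^ (A + 1) → Rough ((X : ℝ) ^ κ) m →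
      AlmostPrime R ((X : ℝ) ^ κ) m := by
    intro X m hX hm hr
    refine ⟨hr, ?_⟩
    apply Pool.Agent.Y987.SZ.len_of (X := X) (C := A + 3) hκ0 (by omega)
      (Int.natAbs_ne_zero.2 hr.1) _ hR
    · intro p hp' hd
      exact hr.2 p hp' (Int.natCast_dvd.2 hd)
    · have h1 : (m.natAbs : ℤ) ≤ 3 * (X : ℤ) ^ (A + 1) := by
        rw [Int.natCast_natAbs]
        exact hm
      have h2 : m.natAbs ≤ 3 * X ^ (A + 1) := by exact_mod_cast h1
      refine h2.trans ?_
      calc 3 * X ^ (A + 1) ≤ X ^ 2 * X ^ (A + 1) := Nat.mul_le_mul_right _ (by nlinarith)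
        _ = X ^ (A + 3) := by
          rw [← pow_add]
          congr 1
          omega
  have hpw : ∀ X : ℕ, 4 ≤ X → (X : ℤ) ≤ (X : ℤ) ^ (A + 1) ∧ (X : ℤ) ^ A ≤ (X : ℤ) ^ (A + 1) := by
    intro X hX
    have h1 : (1 : ℤ) ≤ X := by omega
    refine ⟨?_, pow_le_pow_right₀ h1 (Nat.le_succ A)⟩
    calc (X : ℤ) = (X : ℤ) ^ 1 := (pow_one _).symm
      _ ≤ _ := pow_le_pow_right₀ h1 (by omega)
  refine ⟨R, max (max X1 X2) (max X3 4), min c1 c2, lt_min hc1 hc2, ?_, ?_⟩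
  · intro X hX a b ha hb hab hA hB hS
    have g1 : X1 ≤ X := (le_max_left _ _).trans ((le_max_left _ _).trans hX)
    have g2 : X2 ≤ X := (le_max_right _ _).trans ((le_max_left _ _).trans hX)
    have g3 : X3 ≤ X := (le_max_left _ _).trans ((le_max_right _ _).trans hX)
    have g4 : 4 ≤ X := (le_max_right _ _).trans ((le_max_right _ _).trans hX)
    have hXr : (4 : ℝ) ≤ X := by exact_mod_cast g4
    have hD := hshift X A a b ha hb hab hA hB hS
    have hy2 : 2 ≤ (X : ℝ) ^ κ := hX3 X g3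
    have hya : (X : ℝ) ^ κ ≤ (X : ℝ) ^ κ1 :=
      Real.rpow_le_rpow_of_exponent_le (by linarith) (min_le_left _ _)
    have hyb : (X : ℝ) ^ κ ≤ (X : ℝ) ^ κ2 :=
      Real.rpow_le_rpow_of_exponent_le (by linarith) (min_le_right _ _)
    obtain ⟨hw1, hw2⟩ := hpw X g4
    have hlog : 0 < Real.log X := Real.log_pos (by linarith)
    -- the main term is not negative
    have hS0 : 0 ≤ Sing a b * (X / Real.log X ^ 3) := by
      apply mul_nonneg _ (by positivity)
      rw [hSS a b ha hb hab]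
      exact Pool.Agent.Y987.SZ.SS_nonneg _
    constructor
    · have h1 := hp1 X g1 {0, a, b} (by simp) hD
      rw [← hSS a b ha hb hab] at h1
      refine (mul_le_mul_of_nonneg_right (min_le_left c1 c2) hS0).trans (h1.trans ?_)
      rw [← Set.ncard_coe_finset, Nat.cast_le]
      apply Set.ncard_le_ncard
      · intro n hn
        rw [mem_coe, Pool.Agent.Y987.SZ.mem_PD] at hn
        obtain ⟨⟨_, hn2⟩, hn3, hn4⟩ := hn
        obtain ⟨_, h5, h6⟩ := (hrough _ n a b hy2).1 (hn4.anti hya)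
        refine ⟨hn2, hn3, hlen X _ g4 ?_ h5, hlen X _ g4 ?_ h6⟩
        · rw [abs_le] at hA ⊢
          omega
        · rw [abs_le] at hB ⊢
          omega
      · exact (Set.finite_Iic X).subset (fun n hn => hn.1)
    · intro N hN
      have h1 := hi1 X N g2 {0, a, b} hD
      rw [← hSS a b ha hb hab] at h1
      refine (mul_le_mul_of_nonneg_right (min_le_right c1 c2) hS0).trans (h1.trans ?_)
      rw [← Set.ncard_coe_finset, Nat.cast_le]
      have hN' : (N : ℤ) ≤ (X : ℤ) ^ A := by exact_mod_cast hN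
      apply Set.ncard_le_ncard
      · intro n hn
        rw [mem_coe, Pool.Agent.Y987.SZ.mem_ND] at hn
        obtain ⟨⟨hn1, hn2⟩, hn4⟩ := hn
        obtain ⟨h4, h5, h6⟩ := (hrough _ n a b hy2).1 (hn4.anti hyb)
        refine ⟨hn1, hn2, hlen X _ g4 ?_ h4, hlen X _ g4 ?_ h5, hlen X _ g4 ?_ h6⟩
        · rw [abs_le]
          omega
        · rw [abs_le] at hA ⊢
          omega
        · rw [abs_le] at hB ⊢
          omega
      · exact (Set.finite_Icc 0 (N + X)).subset (fun n hn => ⟨Nat.zero_le _, hn.2.1⟩)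
  · intro k ε hk hε
    obtain ⟨B, X4, hher⟩ := Pool.Agent.Y987.SZ.her_SS 3 A k hk κ ε hκ0 hκle hε
    refine ⟨B, max X4 X3, ?_⟩
    intro X N hX a b ha hb hab hA hB hSS' S hS
    have hD := hshift X A a b ha hb hab hA hB hSS'
    have hy2 : 2 ≤ (X : ℝ) ^ κ := hX3 X ((le_max_right _ _).trans hX)
    have hfin : S.Finite := (Set.finite_Icc 0 (N + X)).subset (fun n hn => ⟨Nat.zero_le _, (hS n hn).2.1⟩)
    have h1 := hher X N ((le_max_left _ _).trans hX) {0, a, b} hD hfin.toFinset (by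
      intro n hn
      rw [Set.Finite.mem_toFinset] at hn
      obtain ⟨h2, h3, h4⟩ := hS n hn
      rw [Pool.Agent.Y987.SZ.mem_ND]
      exact ⟨⟨h2, h3⟩, (hrough _ n a b hy2).2 h4⟩)
    rw [← hSS a b ha hb hab] at h1
    refine le_trans (le_of_eq ?_) h1
    congr 2
    ext n
    constructor
    · rintro ⟨h2, h3⟩
      refine ⟨hfin.mem_toFinset.2 h2, ?_⟩
      rintro ⟨a', q, h4, h5, h6, h7⟩
      exact h3 ⟨a', q, h4, h5, fun j hj => hfin.mem_toFinset.1 (h6 j hj), h7⟩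
    · rintro ⟨h2, h3⟩
      refine ⟨hfin.mem_toFinset.1 h2, ?_⟩
      rintro ⟨a', q, h4, h5, h6, h7⟩
      exact h3 ⟨a', q, h4, h5, fun j hj => hfin.mem_toFinset.2 (h6 j hj), h7⟩

end Pool.Agent.Results.MP_1039f5_nt.UniformNarrowProgressions
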