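import Pool.Agent.Y879.AP.Tuple
import Pool.Agent.Y879.GL.Pattern

set_option autoImplicit false

/-!
Triples of almost primes `n, n + d', n + d` in residue classes, uniformly in ALL `d' < d` and ALL moduli
`q > d` up to any given power of `X`: the number of the almost prime triples with
`n = b + q, b + 2 q, ..., b + T q` is Poisson distributed when `b` runs through the admissible residue
classes modulo `q`, or through the admissible integers in an interval of length at least `X ^ θ`.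
-/

namespace Pool.Agent.Results.MP_1039f5_nt.UniformTriplesInClasses

open Finset Filter
open Pool.Agent.Y879.AP Pool.Agent.W123.RP Pool.Agent.H373R2.T7
open Pool.Agent.TH464.PO Pool.Agent.TH464.PW

/-- none of `n`, `n + d'`, `n + d` has a prime factor `p ≤ X ^ (1 / r)` -/
def Good (X d' d r n : ℕ) : Prop :=
  ∀ p : ℕ, p.Prime → (p : ℝ) ≤ (X : ℝ) ^ (1 / (r : ℝ)) → ¬ p ∣ n ∧ ¬ p ∣ n + d' ∧ ¬ p ∣ n + d

/-- the number of the residue classes modulo `p` containing one of `0`, `d'`, `d` -/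
def nu (d' d p : ℕ) : ℕ := (({0, d', d} : Finset ℕ).image (fun h => h % p)).card

/-- the product of `1 - nu(p) / p` over the primes `p ≤ X ^ (1 / r)` not dividing `q` -/
noncomputable def V (X d' d q r : ℕ) : ℝ :=
  ∏ p ∈ ((Icc 1 ⌊(X : ℝ) ^ (1 / (r : ℝ))⌋₊).filter Nat.Prime).filter (fun p => ¬ p ∣ q),
    (1 - (nu d' d p : ℝ) / p)

/-- the proportion of the classes `b` modulo `q` with `b`, `b + d'`, `b + d` prime to `q` -/
noncomputable def rho (d' d q : ℕ) : ℝ := ∏ p ∈ q.primeFactors, (1 - (nu d' d p : ℝ) / p)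

/-- the singular series of `{0, d', d}`, truncated at `X ^ (1 / r)` -/
noncomputable def Sing (X d' d r : ℕ) : ℝ :=
  ∏ p ∈ (Icc 1 ⌊(X : ℝ) ^ (1 / (r : ℝ))⌋₊).filter Nat.Prime,
    (1 - (nu d' d p : ℝ) / p) / (1 - 1 / (p : ℝ)) ^ 3

open Classical in
/-- the number of the `n = b + q, b + 2 q, ..., b + T q` with `Good X d' d r n` -/
noncomputable def Num (X d' d q r T b : ℕ) : ℕ :=
  ((Icc 1 T).filter (fun t => Good X d' d r (b + q * t))).card

/-- the triple -/
def tr (d' d : ℕ) : Finset ℕ := {0, d', d}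

lemma notQ (d' d p n : ℕ) : ¬ QT (tr d' d) p n ↔ ¬ p ∣ n ∧ ¬ p ∣ n + d' ∧ ¬ p ∣ n + d := by
  unfold QT tr
  constructor
  · intro h
    refine ⟨fun h1 => h ⟨0, by simp, by simpa using h1⟩, fun h1 => h ⟨d', by simp, h1⟩,
      fun h1 => h ⟨d, by simp, h1⟩⟩
  · rintro ⟨h1, h2, h3⟩ ⟨h, hh, hd⟩
    rw [mem_insert, mem_insert, mem_singleton] at hh
    rcases hh with rfl | rfl | rfl
    · exact h1 (by simpa using hd)
    · exact h2 hd
    · exact h3 hd

lemma good_iff (X d' d r n : ℕ) : Good X d' d r n ↔ Sf (QT (tr d' d)) ⌊(X : ℝ) ^ (1 / (r : ℝ))⌋₊ n := by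
  unfold Good Sf
  constructor
  · intro h p hp
    obtain ⟨hp1, hp2⟩ := mem_pz.1 hp
    exact (notQ d' d p n).2 (h p hp2 ((Nat.le_floor_iff (by positivity)).1 hp1))
  · intro h p hp hpr
    exact (notQ d' d p n).1 (h p (mem_pz.2 ⟨Nat.le_floor hpr, hp⟩))

lemma V_eq (X d' d q r : ℕ) : V X d' d q r = Vq (Qn (QT (tr d' d)) q) ⌊(X : ℝ) ^ (1 / (r : ℝ))⌋₊ := by
  unfold V Vq
  rw [Finset.prod_filter]
  apply Finset.prod_congr rfl
  intro p hp
  have hpp := (mem_pz.1 hp).2
  by_cases h : p ∣ q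
  · rw [if_neg (by simpa using h), nuB_Qn_dvd _ _ _ h]
    simp
  · rw [if_pos h, nuB_Qn_not _ _ _ h, nuB_QT _ p hpp]
    rfl

lemma rho_eq (d' d q : ℕ) : rho d' d q = RD (QT (tr d' d)) q := by
  unfold rho RD
  apply Finset.prod_congr rfl
  intro p hp
  rw [nuB_QT _ p (Nat.prime_of_mem_primeFactors hp)]
  rfl

lemma Sing_eq (X d' d r : ℕ) : Sing X d' d r = SS (QT (tr d' d)) 3 ⌊(X : ℝ) ^ (1 / (r : ℝ))⌋₊ := by
  unfold Sing SS
  apply Finset.prod_congr rfl
  intro p hp
  rw [nuB_QT _ p (mem_pz.1 hp).2]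
  rfl

lemma red_iff (d' d q b : ℕ) : Red (QT (tr d' d)) q b ↔
    b.Coprime q ∧ (b + d').Coprime q ∧ (b + d).Coprime q := by
  unfold Red
  constructor
  · intro h
    refine ⟨?_, ?_, ?_⟩
    · apply Nat.coprime_of_dvd
      intro p hp h1 h2
      exact ((notQ d' d p b).1 (h p hp h2)).1 h1
    · apply Nat.coprime_of_dvd
      intro p hp h1 h2
      exact ((notQ d' d p b).1 (h p hp h2)).2.1 h1
    · apply Nat.coprime_of_dvd
      intro p hp h1 h2
      exact ((notQ d' d p b).1 (h p hp h2)).2.2 h1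
  · rintro ⟨h1, h2, h3⟩ p hp hpq
    rw [notQ d' d p b]
    have key : ∀ n : ℕ, n.Coprime q → ¬ p ∣ n := by
      intro n hn h
      have h4 := Nat.dvd_gcd h hpq
      rw [hn] at h4
      exact hp.one_lt.ne' (Nat.dvd_one.1 h4)
    exact ⟨key _ h1, key _ h2, key _ h3⟩

open Classical in
/-- **The Poisson law for triples of almost primes in residue classes, uniformly in the triple and the
modulus.** For all `K ≥ 1`, `θ, ε > 0` and `x₀` there is `r₀` such that for all `r ≥ r₀` there is `X₀`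
such that for all `X ≥ X₀`, ALL `0 < d' < d` for which `{0, d', d}` does not contain all residue classes
modulo any prime, and ALL moduli `q` with `d < q ≤ X ^ K`:
(1) if `0 < n`, `n + d ≤ X ^ (2 K)` and `Good X d' d r n`, then `n`, `n + d'` and `n + d` have at most
`2 K r` prime factors; (2) `V rho log ^ 3 X = ((r e ^ (-γ)) ^ 3 + η) Sing` with `|η| ≤ ε`; (3) in every
interval `(u, u + Y]` with `Y ≥ X ^ θ`, for all `T` with `T V ≤ x₀` and all finite sets `A` of natural
numbers, the number of the `b` with `b`, `b + d'` and `b + d` prime to `q` for which the number of the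
good `n` among `b + q, ..., b + T q` lies in `A` is `Y rho (∑ j ∈ A, e ^ (-T V) (T V) ^ j / j! + η)` with
`|η| ≤ ε`. -/
theorem result (K : ℕ) (hK : 1 ≤ K) (θ x₀ ε : ℝ) (hθ : 0 < θ) (hε : 0 < ε) :
    ∃ r₀ : ℕ, ∀ r : ℕ, r₀ ≤ r → ∃ X₀ : ℕ, ∀ X : ℕ, X₀ ≤ X → ∀ d' d q : ℕ, 0 < d' → d' < d →
      (∀ p : ℕ, p.Prime → nu d' d p < p) → d < q → q ≤ X ^ K →
      (∀ n : ℕ, 0 < n → n + d ≤ X ^ (2 * K) → Good X d' d r n →
        n.primeFactorsList.length ≤ 2 * K * r ∧ (n + d').primeFactorsList.length ≤ 2 * K * r ∧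
          (n + d).primeFactorsList.length ≤ 2 * K * r) ∧
      |V X d' d q r * rho d' d q * Real.log X ^ 3 -
        (r * Real.exp (-Real.eulerMascheroniConstant)) ^ 3 * Sing X d' d r| ≤ ε * Sing X d' d r ∧
      ∀ u Y T : ℕ, (X : ℝ) ^ θ ≤ Y → T * V X d' d q r ≤ x₀ → ∀ A : Finset ℕ,
        |(((Ioc u (u + Y)).filter (fun b : ℕ => (b.Coprime q ∧ (b + d').Coprime q ∧ (b + d).Coprime q) ∧
            Num X d' d q r T b ∈ A)).card : ℝ) -
          Y * rho d' d q *
            ∑ j ∈ A, Real.exp (-(T * V X d' d q r)) * (T * V X d' d q r) ^ j / j.factorial| ≤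
          ε * (Y * rho d' d q) := by
  have hKr : (1 : ℝ) ≤ K := by exact_mod_cast hK
  obtain ⟨r0, hr02, hlaw⟩ := tuple_law 3 (by norm_num) K θ x₀ ε (by linarith) hθ hε
  refine ⟨r0, ?_⟩
  intro r hr
  have hr2 : 2 ≤ r := hr02.trans hr
  obtain ⟨N0, hN0⟩ := eventually_atTop.1 ((hlaw r hr).and
    ((mean_gen 3 3 K (by linarith) r hr2 ε hε).and (Pool.Agent.Y879.GL.level_ok r hr2)))
  refine ⟨max N0 2, ?_⟩
  intro X hX d' d q hd' hdd hadm hdq hqX
  obtain ⟨h1, h2, h3⟩ := hN0 X ((le_max_left _ _).trans hX)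
  have hX2 : 2 ≤ X := (le_max_right _ _).trans hX
  have hX2r : (2 : ℝ) ≤ X := by exact_mod_cast hX2
  have hXpos : (0 : ℝ) < X := by linarith
  have hrr : (2 : ℝ) ≤ r := by exact_mod_cast hr2
  have hqXr : (q : ℝ) ≤ (X : ℝ) ^ (K : ℝ) := by
    rw [Real.rpow_natCast]
    exact_mod_cast hqX
  have hq1 : 1 ≤ q := by omega
  have hcard3 : (tr d' d).card = 3 := by
    unfold tr
    rw [card_insert_of_notMem, card_insert_of_notMem, card_singleton]
    · rw [mem_singleton]
      omega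
    · rw [mem_insert, mem_singleton]
      omega
  have hadm' : ∀ p : ℕ, p.Prime → nuH (tr d' d) p < p := hadm
  refine ⟨?_, ?_, ?_⟩
  · intro n hn hnX hg
    have hz3 : (3 : ℝ) ≤ (X : ℝ) ^ (1 / (r : ℝ)) := by
      have h4 : ((3 : ℕ) : ℝ) ≤ (X : ℝ) ^ (1 / (r : ℝ)) :=
        (Nat.le_floor_iff (by positivity)).1 h3.1
      exact_mod_cast h4
    have hpow : ((X : ℝ) ^ (1 / (r : ℝ))) ^ (2 * K * r) = (X : ℝ) ^ (2 * K) := by
      have hrne : (r : ℝ) ≠ 0 := by linarith
      rw [← Real.rpow_natCast ((X : ℝ) ^ (1 / (r : ℝ))), ← Real.rpow_mul hXpos.le,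
        ← Real.rpow_natCast]
      congr 1
      push_cast
      field_simp
    have key : ∀ m : ℕ, 0 < m → m ≤ n + d → (∀ p : ℕ, p.Prime → (p : ℝ) ≤ (X : ℝ) ^ (1 / (r : ℝ)) →
        ¬ p ∣ m) → m.primeFactorsList.length ≤ 2 * K * r := by
      intro m hm hmn hmp
      refine Pool.Agent.Y879.GL.few_of_rough ((X : ℝ) ^ (1 / (r : ℝ))) (by linarith) m _
        (by omega) ?_ ?_
      · rw [hpow]
        exact_mod_cast hmn.trans hnX
      · intro p hp hpn
        by_contra hcon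
        rw [not_lt] at hcon
        exact hmp p hp hcon hpn
    exact ⟨key n hn (by omega) (fun p hp hpr => (hg p hp hpr).1),
      key (n + d') (by omega) (by omega) (fun p hp hpr => (hg p hp hpr).2.1),
      key (n + d) (by omega) (by omega) (fun p hp hpr => (hg p hp hpr).2.2)⟩
  · rw [V_eq, rho_eq, Sing_eq]
    exact h2 (QT (tr d' d)) q (perB_QT _ 3 hcard3.le) (fun p hp => by
      rw [nuB_QT _ p hp]; exact hadm' p hp) hq1 hqXr
  · intro u Y T hY hT A
    rw [V_eq] at hT ⊢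
    rw [rho_eq]
    have h4 := h1 (tr d' d) q hcard3.le (by rw [hcard3]; norm_num) hadm'
      (fun h hh => by
        unfold tr at hh
        rw [mem_insert, mem_insert, mem_singleton] at hh
        rcases hh with rfl | rfl | rfl <;> omega) hqXr u Y hY T hT A
    have hcard : ((Ioc u (u + Y)).filter (fun b : ℕ =>
          (b.Coprime q ∧ (b + d').Coprime q ∧ (b + d).Coprime q) ∧ Num X d' d q r T b ∈ A)).card =
        ((Ioc u (u + Y)).filter (fun n => Red (QT (tr d' d)) q n ∧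
        Ws (QT (tr d' d)) q ⌊(X : ℝ) ^ (1 / (r : ℝ))⌋₊ T n ∈ A)).card := by
      apply card_iff
      intro b _
      rw [red_iff d' d q b]
      refine and_congr Iff.rfl ?_
      have h10 : Num X d' d q r T b = Ws (QT (tr d' d)) q ⌊(X : ℝ) ^ (1 / (r : ℝ))⌋₊ T b := by
        unfold Num Ws
        exact card_iff _ _ (fun t _ => good_iff X d' d r (b + q * t))
      rw [h10]
    rw [hcard]
    exact h4

end Pool.Agent.Results.MP_1039f5_nt.UniformTriplesInClasses
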